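import Pool.Agent.Helper21.EM.Stmts

/-!
Elements of orthogonal and symplectic Lie algebras which define gradings: common lemmas
(rows SPO and SPS of the project EM).
-/

set_option autoImplicit false

open Matrix Polynomial MT

namespace EM
namespace SP11

variable {K : Type} [Field K] {r : ℕ}

/-- diagonalization of a matrix annihilated by a squarefree polynomial -/
theorem diag1 [IsAlgClosed K] (M : Matrix (Fin r) (Fin r) K) (q : K[X]) (hq : Squarefree q)
    (h : aeval M q = 0) :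
    ∃ (P : Matrix.GeneralLinearGroup (Fin r) K) (t : Fin r → K),
      M = (P : Matrix (Fin r) (Fin r) K) * Matrix.diagonal t *
        ((P⁻¹ : Matrix.GeneralLinearGroup (Fin r) K) : Matrix (Fin r) (Fin r) K) := by
  let f : Module.End K (Fin r → K) := Matrix.toLinAlgEquiv' M
  have hss : f.IsSemisimple := by
    refine Module.End.isSemisimple_of_squarefree_aeval_eq_zero hq ?_
    have h1 := aeval_algHom_apply (Matrix.toLinAlgEquiv' (R := K) (n := Fin r)).toAlgHom M q
    rw [h, map_zero] at h1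
    exact h1
  have htop := Module.End.iSup_maxGenEigenspace_eq_top f
  let X : Set (Fin r → K) := {v | ∃ c : K, M.mulVec v = c • v}
  have hspan : ⊤ ≤ Submodule.span K X := by
    rw [← htop]
    refine iSup_le fun χ => ?_
    intro v hv
    apply Submodule.subset_span
    refine ⟨χ, ?_⟩
    rw [(Module.End.isFinitelySemisimple_iff_isSemisimple.2 hss).maxGenEigenspace_eq_eigenspace,
      Module.End.mem_eigenspace_iff] at hv
    exact hv
  let b₀ := Module.Basis.ofSpan hspan
  have hfin : Finite _ := Module.Finite.finite_basis b₀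
  have hft := Fintype.ofFinite (↥((linearIndepOn_empty K id).extend (Set.empty_subset X)))
  have hcard : Fintype.card (↥((linearIndepOn_empty K id).extend (Set.empty_subset X))) = r := by
    rw [← Module.finrank_eq_card_basis b₀]
    simp
  let b : Module.Basis (Fin r) K (Fin r → K) := b₀.reindex (Fintype.equivFinOfCardEq hcard)
  have hbX : ∀ j, b j ∈ X := by
    intro j
    apply Module.Basis.ofSpan_subset hspan
    rw [Module.Basis.reindex_apply]
    exact ⟨_, rfl⟩
  choose d hd using fun (j : Fin r) => hbX j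
  let P : Matrix (Fin r) (Fin r) K := (Pi.basisFun K (Fin r)).toMatrix b
  let P' : Matrix (Fin r) (Fin r) K := b.toMatrix (Pi.basisFun K (Fin r))
  have hPP : P * P' = 1 := Module.Basis.toMatrix_mul_toMatrix_flip _ _
  have hPP' : P' * P = 1 := Module.Basis.toMatrix_mul_toMatrix_flip _ _
  refine ⟨⟨P, P', hPP, hPP'⟩, d, ?_⟩
  have h1 : M * P = P * Matrix.diagonal d := by
    ext k j
    rw [Matrix.mul_diagonal]
    have h2 := congrFun (hd j) k
    rw [Pi.smul_apply, smul_eq_mul, mul_comm] at h2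
    rw [Matrix.mul_apply]
    exact h2
  show M = P * Matrix.diagonal d * P'
  rw [← h1, mul_assoc, hPP, mul_one]

/-- `v ↦ ψ(b, v) a` -/
def ten (ψ : Matrix (Fin r) (Fin r) K) (a b : Fin r → K) : Matrix (Fin r) (Fin r) K :=
  vecMulVec a (b ᵥ* ψ)

/-- `v ↦ ψ(b, v) a - ε ψ(a, v) b` -/
def sk (ε : K) (ψ : Matrix (Fin r) (Fin r) K) (a b : Fin r → K) : Matrix (Fin r) (Fin r) K :=
  ten ψ a b - ε • ten ψ b a

theorem sk_add (ε : K) (ψ : Matrix (Fin r) (Fin r) K) (a b c : Fin r → K) :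
    sk ε ψ a (b + c) = sk ε ψ a b + sk ε ψ a c := by
  simp only [sk, ten, add_vecMul, vecMulVec_add, add_vecMulVec, smul_add]
  abel

theorem sk_smul (ε : K) (ψ : Matrix (Fin r) (Fin r) K) (a b : Fin r → K) (c : K) :
    sk ε ψ a (c • b) = c • sk ε ψ a b := by
  simp only [sk, ten, smul_vecMul, vecMulVec_smul, smul_vecMulVec, smul_sub]
  rw [smul_comm]

theorem ten_brk (ψ T : Matrix (Fin r) (Fin r) K) (hT : T.transpose * ψ + ψ * T = 0)
    (a b : Fin r → K) :
    T * ten ψ a b - ten ψ a b * T = ten ψ (T *ᵥ a) b + ten ψ a (T *ᵥ b) := by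
  have h1 : b ᵥ* ψ ᵥ* T = -((T *ᵥ b) ᵥ* ψ) := by
    have h2 : ψ * T = -(T.transpose * ψ) := by
      rw [eq_neg_iff_add_eq_zero, add_comm]
      exact hT
    rw [vecMul_vecMul, h2, vecMul_neg, ← vecMul_vecMul, vecMul_transpose]
  rw [ten, mul_vecMulVec, vecMulVec_mul, h1, ten, ten, vecMulVec_neg]
  abel

theorem sk_brk (ε : K) (ψ T : Matrix (Fin r) (Fin r) K) (hT : T.transpose * ψ + ψ * T = 0)
    (a b : Fin r → K) :
    T * sk ε ψ a b - sk ε ψ a b * T = sk ε ψ (T *ᵥ a) b + sk ε ψ a (T *ᵥ b) := by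
  have h1 := ten_brk ψ T hT a b
  have h2 := ten_brk ψ T hT b a
  simp only [sk]
  rw [Matrix.mul_sub, Matrix.sub_mul, Matrix.mul_smul, Matrix.smul_mul]
  calc T * ten ψ a b - ε • (T * ten ψ b a) - (ten ψ a b * T - ε • (ten ψ b a * T))
      = (T * ten ψ a b - ten ψ a b * T) - ε • (T * ten ψ b a - ten ψ b a * T) := by
        rw [smul_sub]; abel
    _ = _ := by rw [h1, h2, smul_add]; abel

theorem sk_skew (ε : K) (hε : ε * ε = 1) (ψ : Matrix (Fin r) (Fin r) K)
    (hψ : ψ.transpose = ε • ψ) (a b : Fin r → K) :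
    (sk ε ψ a b).transpose * ψ + ψ * sk ε ψ a b = 0 := by
  have h0 : ∀ x : Fin r → K, ψ *ᵥ x = ε • (x ᵥ* ψ) := by
    intro x
    have h1 : ψ *ᵥ x = x ᵥ* ψ.transpose := by rw [vecMul_transpose]
    rw [h1, hψ, vecMul_smul]
  have h1 : ∀ x y : Fin r → K, (ten ψ x y).transpose * ψ = vecMulVec (y ᵥ* ψ) (x ᵥ* ψ) := by
    intro x y
    rw [ten, transpose_vecMulVec, vecMulVec_mul]
  have h2 : ∀ x y : Fin r → K, ψ * ten ψ x y = ε • vecMulVec (x ᵥ* ψ) (y ᵥ* ψ) := by
    intro x y
    rw [ten, mul_vecMulVec, h0, smul_vecMulVec]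
  rw [sk, transpose_sub, transpose_smul, Matrix.sub_mul, Matrix.smul_mul, Matrix.mul_sub,
    Matrix.mul_smul, h1, h1, h2, h2, smul_smul, hε, one_smul]
  abel

/-- the bracket with `T` -/
def AD (T Y : Matrix (Fin r) (Fin r) K) : Matrix (Fin r) (Fin r) K := T * Y - Y * T

theorem AD_sk (ε : K) (ψ T : Matrix (Fin r) (Fin r) K) (hT : T.transpose * ψ + ψ * T = 0)
    (x y : Fin r → K) (lam : K) (hx : T *ᵥ x = lam • x) :
    AD T (sk ε ψ x y) = sk ε ψ x ((T + lam • (1 : Matrix (Fin r) (Fin r) K)) *ᵥ y) := by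
  have h1 : ∀ a : Fin r → K, sk ε ψ (lam • x) a = lam • sk ε ψ x a := by
    intro a
    simp only [sk, ten, smul_vecMul, vecMulVec_smul, smul_vecMulVec, smul_sub]
    rw [smul_comm]
  rw [AD, sk_brk ε ψ T hT, hx, h1, Matrix.add_mulVec, sk_add, smul_mulVec, one_mulVec, sk_smul]
  abel

theorem sk_zero_right (ψ : Matrix (Fin r) (Fin r) K) (hψ : ψ.det ≠ 0) (ε : K) (hε : ε * ε = 1)
    (x z : Fin r → K) (hx : x ≠ 0) (h : sk ε ψ x z = 0) : ∃ c : K, z = c • x := by
  have h1 : x ᵥ* ψ ≠ 0 := by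
    intro h2
    exact hx (Matrix.eq_zero_of_vecMul_eq_zero hψ h2)
  obtain ⟨j, hj⟩ := Function.ne_iff.1 h1
  rw [Pi.zero_apply] at hj
  refine ⟨ε * (z ᵥ* ψ) j / (x ᵥ* ψ) j, ?_⟩
  funext i
  have h2 := congrFun (congrFun h i) j
  rw [sk, ten, ten, Matrix.sub_apply, Matrix.smul_apply, vecMulVec_apply, vecMulVec_apply,
    Matrix.zero_apply, smul_eq_mul] at h2
  rw [Pi.smul_apply, smul_eq_mul, div_mul_eq_mul_div, eq_div_iff hj]
  linear_combination (-ε) * h2 - (z i * (x ᵥ* ψ) j) * hε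

theorem sk_neg_zero_right [CharZero K] (ψ : Matrix (Fin r) (Fin r) K) (hψ : ψ.det ≠ 0)
    (x z : Fin r → K) (hx : x ≠ 0) (h : sk (-1) ψ x z = 0) : z = 0 := by
  obtain ⟨c, rfl⟩ := sk_zero_right ψ hψ (-1) (by ring) x z hx h
  have h1 : x ᵥ* ψ ≠ 0 := by
    intro h2
    exact hx (Matrix.eq_zero_of_vecMul_eq_zero hψ h2)
  obtain ⟨j, hj⟩ := Function.ne_iff.1 h1
  obtain ⟨i, hi⟩ := Function.ne_iff.1 hx
  rw [Pi.zero_apply] at hj hi
  rw [sk_smul] at h
  have h2 := congrFun (congrFun h i) j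
  rw [Matrix.smul_apply, sk, ten, Matrix.sub_apply, Matrix.smul_apply, vecMulVec_apply,
    Matrix.zero_apply, smul_eq_mul, smul_eq_mul] at h2
  have h3 : c * (2 * (x i * (x ᵥ* ψ) j)) = 0 := by linear_combination h2
  have h4 : (2 : K) * (x i * (x ᵥ* ψ) j) ≠ 0 := mul_ne_zero two_ne_zero (mul_ne_zero hi hj)
  rw [(mul_eq_zero.1 h3).resolve_right h4, zero_smul]

/-- the column `j` of `P` -/
def cl (P : Matrix.GeneralLinearGroup (Fin r) K) (j : Fin r) : Fin r → K :=
  (P : Matrix (Fin r) (Fin r) K) *ᵥ Pi.single j 1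

theorem inv_mul' (P : Matrix.GeneralLinearGroup (Fin r) K) :
    ((P⁻¹ : Matrix.GeneralLinearGroup (Fin r) K) : Matrix (Fin r) (Fin r) K) *
      (P : Matrix (Fin r) (Fin r) K) = 1 := by
  rw [← Matrix.GeneralLinearGroup.coe_mul, inv_mul_cancel, Matrix.GeneralLinearGroup.coe_one]

theorem mul_inv' (P : Matrix.GeneralLinearGroup (Fin r) K) :
    (P : Matrix (Fin r) (Fin r) K) *
      ((P⁻¹ : Matrix.GeneralLinearGroup (Fin r) K) : Matrix (Fin r) (Fin r) K) = 1 := by
  rw [← Matrix.GeneralLinearGroup.coe_mul, mul_inv_cancel, Matrix.GeneralLinearGroup.coe_one]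

theorem cl_inj (P : Matrix.GeneralLinearGroup (Fin r) K) (v : Fin r → K)
    (h : (P : Matrix (Fin r) (Fin r) K) *ᵥ v = 0) : v = 0 := by
  have h1 := congrArg (fun w =>
    ((P⁻¹ : Matrix.GeneralLinearGroup (Fin r) K) : Matrix (Fin r) (Fin r) K) *ᵥ w) h
  simp only [mulVec_mulVec, inv_mul', one_mulVec, mulVec_zero] at h1
  exact h1

theorem cl_ne (P : Matrix.GeneralLinearGroup (Fin r) K) (j : Fin r) : cl P j ≠ 0 := by
  intro h
  have h1 := congrFun (cl_inj P _ h) j
  rw [Pi.single_eq_same, Pi.zero_apply] at h1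
  exact one_ne_zero h1

theorem cl_indep (P : Matrix.GeneralLinearGroup (Fin r) K) (i j : Fin r) (hij : i ≠ j) (c d : K)
    (h : c • cl P i = d • cl P j) : c = 0 ∧ d = 0 := by
  have h1 : (P : Matrix (Fin r) (Fin r) K) *ᵥ (c • Pi.single i 1 - d • Pi.single j 1) = 0 := by
    rw [mulVec_sub, mulVec_smul, mulVec_smul, sub_eq_zero]
    exact h
  have h2 := cl_inj P _ h1
  have h3 := congrFun h2 i
  have h4 := congrFun h2 j
  rw [Pi.sub_apply, Pi.smul_apply, Pi.smul_apply, Pi.single_eq_same,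
    Pi.single_eq_of_ne hij, Pi.zero_apply, smul_zero, sub_zero, smul_eq_mul, mul_one] at h3
  rw [Pi.sub_apply, Pi.smul_apply, Pi.smul_apply, Pi.single_eq_same,
    Pi.single_eq_of_ne (Ne.symm hij), Pi.zero_apply, smul_zero, zero_sub, smul_eq_mul, mul_one,
    neg_eq_zero] at h4
  exact ⟨h3, h4⟩

theorem cl_eig (P : Matrix.GeneralLinearGroup (Fin r) K) (t : Fin r → K)
    (T : Matrix (Fin r) (Fin r) K) (hT : T = (P : Matrix (Fin r) (Fin r) K) *
      Matrix.diagonal t *
        ((P⁻¹ : Matrix.GeneralLinearGroup (Fin r) K) : Matrix (Fin r) (Fin r) K)) (j : Fin r) :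
    T *ᵥ cl P j = t j • cl P j := by
  have h1 : T * (P : Matrix (Fin r) (Fin r) K) =
      (P : Matrix (Fin r) (Fin r) K) * Matrix.diagonal t := by
    rw [hT, Matrix.mul_assoc, inv_mul', Matrix.mul_one]
  rw [cl, mulVec_mulVec, h1, ← mulVec_mulVec, ← mulVec_smul]
  congr 1
  funext i
  rw [mulVec_diagonal, Pi.smul_apply, smul_eq_mul]
  by_cases hij : i = j
  · subst hij
    rfl
  · rw [Pi.single_eq_of_ne hij, mul_zero, mul_zero]

/-- the form in a basis of eigenvectors pairs opposite eigenvalues -/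
theorem pairing (ψ T : Matrix (Fin r) (Fin r) K) (hT : T.transpose * ψ + ψ * T = 0)
    (P : Matrix.GeneralLinearGroup (Fin r) K) (t : Fin r → K)
    (hTP : T = (P : Matrix (Fin r) (Fin r) K) * Matrix.diagonal t *
        ((P⁻¹ : Matrix.GeneralLinearGroup (Fin r) K) : Matrix (Fin r) (Fin r) K)) (i j : Fin r) :
    (t i + t j) * ((P : Matrix (Fin r) (Fin r) K).transpose * ψ *
      (P : Matrix (Fin r) (Fin r) K)) i j = 0 := by
  have h1 : T * (P : Matrix (Fin r) (Fin r) K) =
      (P : Matrix (Fin r) (Fin r) K) * Matrix.diagonal t := by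
    rw [hTP, Matrix.mul_assoc, inv_mul', Matrix.mul_one]
  have h2 : (P : Matrix (Fin r) (Fin r) K).transpose * T.transpose =
      Matrix.diagonal t * (P : Matrix (Fin r) (Fin r) K).transpose := by
    rw [← transpose_mul, h1, transpose_mul, diagonal_transpose]
  have h3 : (P : Matrix (Fin r) (Fin r) K).transpose * (T.transpose * ψ + ψ * T) *
      (P : Matrix (Fin r) (Fin r) K) = Matrix.diagonal t *
        ((P : Matrix (Fin r) (Fin r) K).transpose * ψ * (P : Matrix (Fin r) (Fin r) K)) +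
      ((P : Matrix (Fin r) (Fin r) K).transpose * ψ * (P : Matrix (Fin r) (Fin r) K)) *
        Matrix.diagonal t := by
    rw [Matrix.mul_add, Matrix.add_mul]
    congr 1
    · rw [← Matrix.mul_assoc, h2]
      simp only [Matrix.mul_assoc]
    · simp only [Matrix.mul_assoc]
      rw [h1]
  rw [hT, Matrix.mul_zero, Matrix.zero_mul] at h3
  have h4 := congrFun (congrFun h3 i) j
  rw [Matrix.zero_apply, Matrix.add_apply, diagonal_mul, mul_diagonal] at h4
  linear_combination -h4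

theorem pair_det (ψ : Matrix (Fin r) (Fin r) K) (hψ : ψ.det ≠ 0)
    (P : Matrix.GeneralLinearGroup (Fin r) K) :
    ((P : Matrix (Fin r) (Fin r) K).transpose * ψ * (P : Matrix (Fin r) (Fin r) K)).det ≠ 0 := by
  have h1 : (P : Matrix (Fin r) (Fin r) K).det ≠ 0 := by
    intro h
    have h2 := congrArg Matrix.det (mul_inv' P)
    rw [det_mul, h, zero_mul, det_one] at h2
    exact zero_ne_one h2
  rw [det_mul, det_mul, det_transpose]
  exact mul_ne_zero (mul_ne_zero h1 hψ) h1

/-- every eigenvalue has its opposite -/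
theorem opp_ex (ψ T : Matrix (Fin r) (Fin r) K) (hψ : ψ.det ≠ 0)
    (hT : T.transpose * ψ + ψ * T = 0)
    (P : Matrix.GeneralLinearGroup (Fin r) K) (t : Fin r → K)
    (hTP : T = (P : Matrix (Fin r) (Fin r) K) * Matrix.diagonal t *
        ((P⁻¹ : Matrix.GeneralLinearGroup (Fin r) K) : Matrix (Fin r) (Fin r) K)) (i : Fin r) :
    ∃ j, t i + t j = 0 := by
  by_contra hcon
  push Not at hcon
  apply pair_det ψ hψ P
  apply Matrix.det_eq_zero_of_row_eq_zero i
  intro j
  exact (mul_eq_zero.1 (pairing ψ T hT P t hTP i j)).resolve_left (hcon j)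

/-- if an eigenvalue is simple then its opposite is simple -/
theorem opp_uniq (ψ T : Matrix (Fin r) (Fin r) K) (hψ : ψ.det ≠ 0)
    (hT : T.transpose * ψ + ψ * T = 0)
    (P : Matrix.GeneralLinearGroup (Fin r) K) (t : Fin r → K)
    (hTP : T = (P : Matrix (Fin r) (Fin r) K) * Matrix.diagonal t *
        ((P⁻¹ : Matrix.GeneralLinearGroup (Fin r) K) : Matrix (Fin r) (Fin r) K)) (i j j' : Fin r)
    (hi : ∀ k, k ≠ i → t k ≠ t i) (hj : t i + t j = 0) (hj' : t i + t j' = 0) : j = j' := by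
  by_contra hne
  set M := (P : Matrix (Fin r) (Fin r) K).transpose * ψ * (P : Matrix (Fin r) (Fin r) K) with hM
  have hz : ∀ l, t i + t l = 0 → ∀ k, k ≠ i → M l k = 0 := by
    intro l hl k hk
    refine (mul_eq_zero.1 (pairing ψ T hT P t hTP l k)).resolve_left ?_
    intro h1
    apply hi k hk
    linear_combination h1 - hl
  have hdet := pair_det ψ hψ P
  rw [← hM] at hdet
  have h1 : (M j i • Pi.single j' (1 : K) - M j' i • Pi.single j (1 : K)) ᵥ* M = 0 := by
    funext k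
    rw [sub_vecMul, smul_vecMul, smul_vecMul, single_one_vecMul, single_one_vecMul, Pi.sub_apply,
      Pi.smul_apply, Pi.smul_apply, Matrix.row_apply, Matrix.row_apply, Pi.zero_apply, smul_eq_mul,
      smul_eq_mul]
    by_cases hk : k = i
    · subst hk
      ring
    · rw [hz j hj k hk, hz j' hj' k hk]
      ring
  have h2 := Matrix.eq_zero_of_vecMul_eq_zero hdet h1
  have h3 := congrFun h2 j'
  rw [Pi.sub_apply, Pi.smul_apply, Pi.smul_apply, Pi.single_eq_same,
    Pi.single_eq_of_ne (Ne.symm hne), Pi.zero_apply, smul_zero, sub_zero, smul_eq_mul,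
    mul_one] at h3
  apply hdet
  apply Matrix.det_eq_zero_of_row_eq_zero j
  intro k
  by_cases hk : k = i
  · rw [hk]
    exact h3
  · exact hz j hj k hk

/-- an eigenvalue of a skew matrix has its opposite -/
theorem neg_det (ψ T : Matrix (Fin r) (Fin r) K) (hψ : ψ.det ≠ 0)
    (hT : T.transpose * ψ + ψ * T = 0) (lam : K)
    (h : (T - lam • (1 : Matrix (Fin r) (Fin r) K)).det = 0) :
    (T + lam • (1 : Matrix (Fin r) (Fin r) K)).det = 0 := by
  have h1 : (T - lam • (1 : Matrix (Fin r) (Fin r) K)).transpose * ψ =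
      -(ψ * (T + lam • (1 : Matrix (Fin r) (Fin r) K))) := by
    rw [transpose_sub, transpose_smul, transpose_one, Matrix.sub_mul, Matrix.smul_mul,
      Matrix.one_mul, Matrix.mul_add, Matrix.mul_smul, Matrix.mul_one]
    have h2 : T.transpose * ψ = -(ψ * T) := by
      rw [eq_neg_iff_add_eq_zero]
      exact hT
    rw [h2]
    abel
  have h2 := congrArg Matrix.det h1
  rw [det_mul, det_transpose, h, zero_mul, det_neg, det_mul] at h2
  have h3 : ((-1 : K) ^ Fintype.card (Fin r)) ≠ 0 := pow_ne_zero _ (neg_ne_zero.2 one_ne_zero)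
  have h4 := (mul_eq_zero.1 h2.symm).resolve_left h3
  exact (mul_eq_zero.1 h4).resolve_left hψ

/-- the integral diagonal form -/
theorem to_dg (P : Matrix.GeneralLinearGroup (Fin r) K) (t : Fin r → K) (s : Fin r → ℤ)
    (h : ∀ j, t j = (s j : K)) : (P : Matrix (Fin r) (Fin r) K) * Matrix.diagonal t *
      ((P⁻¹ : Matrix.GeneralLinearGroup (Fin r) K) : Matrix (Fin r) (Fin r) K) = dg P s := by
  rw [dg, show t = fun j => (s j : K) from funext h]

end SP11
end EM
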