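import Pool.Agent.Helper11.EM.SPB

/-! Row SPO of the project EM. -/

set_option autoImplicit false

open Matrix Polynomial MT

namespace EM

open SP11

namespace SP11

variable {K : Type} [Field K] {r : ℕ}

/-- consequences of the grading hypothesis -/
theorem spo_ad (ψ T : Matrix (Fin r) (Fin r) K)
    (hG : ∀ Y : Matrix (Fin r) (Fin r) K, Y.transpose * ψ + ψ * Y = 0 →
      ∃ Y₀ Y₁ Y₂ : Matrix (Fin r) (Fin r) K, Y = Y₀ + Y₁ + Y₂ ∧ T * Y₀ - Y₀ * T = 0 ∧
        T * Y₁ - Y₁ * T = Y₁ ∧ T * Y₂ - Y₂ * T = -Y₂) (Y : Matrix (Fin r) (Fin r) K)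
    (hY : Y.transpose * ψ + ψ * Y = 0) : AD T (AD T (AD T Y)) = AD T Y := by
  obtain ⟨Y₀, Y₁, Y₂, rfl, h0, h1, h2⟩ := hG Y hY
  have hadd : ∀ A B : Matrix (Fin r) (Fin r) K, AD T (A + B) = AD T A + AD T B := by
    intro A B
    rw [AD, AD, AD, Matrix.mul_add, Matrix.add_mul]
    abel
  have hneg : ∀ A : Matrix (Fin r) (Fin r) K, AD T (-A) = -AD T A := by
    intro A
    rw [AD, AD, Matrix.mul_neg, Matrix.neg_mul]
    abel
  have e0 : AD T Y₀ = 0 := h0
  have e1 : AD T Y₁ = Y₁ := h1
  have e2 : AD T Y₂ = -Y₂ := h2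
  have h3 : AD T (Y₀ + Y₁ + Y₂) = Y₁ + -Y₂ := by
    rw [hadd, hadd, e0, e1, e2, zero_add]
  rw [h3, hadd, hneg, e1, e2, neg_neg, hadd, e1, e2]

/-- in the eigenvector basis -/
theorem spo_star (ψ T : Matrix (Fin r) (Fin r) K) (hψ : ψ.det ≠ 0) (hs : ψ.transpose = ψ)
    (hT : T.transpose * ψ + ψ * T = 0)
    (hA : ∀ Y : Matrix (Fin r) (Fin r) K, Y.transpose * ψ + ψ * Y = 0 →
      AD T (AD T (AD T Y)) = AD T Y) (x : Fin r → K) (hx : x ≠ 0) (lam : K)
    (hlam : T *ᵥ x = lam • x) :
    (T - lam • (1 : Matrix (Fin r) (Fin r) K)) *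
      ((T + lam • (1 : Matrix (Fin r) (Fin r) K)) ^ 3 -
        (T + lam • (1 : Matrix (Fin r) (Fin r) K))) = 0 := by
  set S := T + lam • (1 : Matrix (Fin r) (Fin r) K) with hS
  have hsk : ∀ y : Fin r → K, sk 1 ψ x ((S ^ 3 - S) *ᵥ y) = 0 := by
    intro y
    have h1 := hA (sk 1 ψ x y) (sk_skew 1 (by ring) ψ (by rw [one_smul]; exact hs) x y)
    rw [AD_sk 1 ψ T hT x y lam hlam, AD_sk 1 ψ T hT x _ lam hlam, AD_sk 1 ψ T hT x _ lam hlam,
      ← hS] at h1
    have h2 : (S ^ 3 - S) *ᵥ y = S *ᵥ S *ᵥ S *ᵥ y + (-1 : K) • S *ᵥ y := by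
      rw [sub_mulVec, mulVec_mulVec, mulVec_mulVec, neg_smul, one_smul, ← sub_eq_add_neg]
      congr 2
      noncomm_ring
    rw [h2, sk_add, sk_smul, h1, neg_smul, one_smul, add_neg_cancel]
  have hker : ∀ y : Fin r → K, ((T - lam • (1 : Matrix (Fin r) (Fin r) K)) * (S ^ 3 - S)) *ᵥ y
      = 0 := by
    intro y
    obtain ⟨c, hc⟩ := sk_zero_right ψ hψ 1 (by ring) x _ hx (hsk y)
    rw [← mulVec_mulVec, hc, mulVec_smul, sub_mulVec, smul_mulVec, one_mulVec, hlam, sub_self,
      smul_zero]
  apply Matrix.ext_of_mulVec_single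
  intro i
  rw [hker, zero_mulVec]

/-- the case of a nilpotent element -/
theorem spo_nil [CharZero K] (ψ T : Matrix (Fin r) (Fin r) K) (hr : 3 ≤ r) (hψ : ψ.det ≠ 0)
    (hs : ψ.transpose = ψ) (hT : T.transpose * ψ + ψ * T = 0)
    (hA : ∀ Y : Matrix (Fin r) (Fin r) K, Y.transpose * ψ + ψ * Y = 0 →
      AD T (AD T (AD T Y)) = AD T Y) (h2 : T * T = 0) : T = 0 := by
  by_contra hT0
  have hA0 : ∀ Y : Matrix (Fin r) (Fin r) K, Y.transpose * ψ + ψ * Y = 0 → AD T Y = 0 := by
    intro Y hY
    rw [← hA Y hY]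
    have e1 : AD T (AD T (AD T Y)) = (T * T) * (T * Y) - (T * T) * (Y * T) - (T * T) * Y * T +
        T * Y * (T * T) - (T * T) * (Y * T) + T * Y * (T * T) + T * Y * (T * T) -
        Y * T * (T * T) := by
      simp only [AD]
      noncomm_ring
    rw [e1, h2]
    simp
  -- a vector with `T a ≠ 0`
  obtain ⟨a, ha⟩ : ∃ a : Fin r → K, T *ᵥ a ≠ 0 := by
    by_contra hcon
    push Not at hcon
    apply hT0
    apply Matrix.ext_of_mulVec_single
    intro i
    rw [hcon, zero_mulVec]
  have hTTa : T *ᵥ T *ᵥ a = 0 := by rw [mulVec_mulVec, h2, zero_mulVec]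
  -- a vector orthogonal to `a` and to `T a`
  obtain ⟨v, hv, hv1, hv2⟩ : ∃ v : Fin r → K, v ≠ 0 ∧ (a ᵥ* ψ) ⬝ᵥ v = 0 ∧
      ((T *ᵥ a) ᵥ* ψ) ⬝ᵥ v = 0 := by
    let f : (Fin r → K) →ₗ[K] (Fin 2 → K) :=
      Matrix.mulVecLin (Matrix.of ![a ᵥ* ψ, (T *ᵥ a) ᵥ* ψ])
    have hf : LinearMap.ker f ≠ ⊥ := by
      apply LinearMap.ker_ne_bot_of_finrank_lt
      simp only [Module.finrank_fintype_fun_eq_card, Fintype.card_fin]
      omega
    obtain ⟨v, hv, hv0⟩ := (Submodule.ne_bot_iff _).1 hf
    refine ⟨v, hv0, ?_, ?_⟩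
    · have := congrFun (LinearMap.mem_ker.1 hv) 0
      exact this
    · have := congrFun (LinearMap.mem_ker.1 hv) 1
      exact this
  -- a vector `b` with `ψ(b, v) = 1`
  obtain ⟨b, hb⟩ : ∃ b : Fin r → K, (b ᵥ* ψ) ⬝ᵥ v = 1 := by
    have h3 : ψ *ᵥ v ≠ 0 := fun h => hv (Matrix.eq_zero_of_mulVec_eq_zero hψ h)
    obtain ⟨i, hi⟩ := Function.ne_iff.1 h3
    rw [Pi.zero_apply] at hi
    refine ⟨((ψ *ᵥ v) i)⁻¹ • Pi.single i 1, ?_⟩
    rw [← dotProduct_mulVec, smul_dotProduct, single_one_dotProduct, smul_eq_mul,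
      inv_mul_cancel₀ hi]
  have h4 := hA0 _ (sk_skew 1 (by ring) ψ (by rw [one_smul]; exact hs) a b)
  rw [AD, sk_brk 1 ψ T hT] at h4
  have h5 := congrArg (fun M : Matrix (Fin r) (Fin r) K => M *ᵥ v) h4
  simp only [sk, ten, add_mulVec, sub_mulVec, vecMulVec_mulVec, zero_mulVec,
    one_smul, hv1, hv2, hb, MulOpposite.op_zero, MulOpposite.op_one, zero_smul, sub_zero] at h5
  -- `T a + ψ(T b, v) a = 0`
  have h6 : T *ᵥ a + (((T *ᵥ b) ᵥ* ψ) ⬝ᵥ v) • a = 0 := by
    simpa using h5
  have h7 := congrArg (fun w => T *ᵥ w) h6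
  simp only [mulVec_add, mulVec_smul, hTTa, zero_add, mulVec_zero] at h7
  have h8 := (smul_eq_zero.1 h7).resolve_right ha
  rw [h8, zero_smul, add_zero] at h6
  exact ha h6

theorem AD_smul (T Y : Matrix (Fin r) (Fin r) K) (c : K) : AD T (c • Y) = c • AD T Y := by
  rw [AD, AD, Matrix.mul_smul, Matrix.smul_mul, smul_sub]

theorem AD_cl (ε : K) (ψ T : Matrix (Fin r) (Fin r) K) (hT : T.transpose * ψ + ψ * T = 0)
    (P : Matrix.GeneralLinearGroup (Fin r) K) (t : Fin r → K)
    (hTP : T = (P : Matrix (Fin r) (Fin r) K) * Matrix.diagonal t *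
        ((P⁻¹ : Matrix.GeneralLinearGroup (Fin r) K) : Matrix (Fin r) (Fin r) K)) (i j : Fin r) :
    AD T (sk ε ψ (cl P i) (cl P j)) = (t i + t j) • sk ε ψ (cl P i) (cl P j) := by
  rw [AD_sk ε ψ T hT (cl P i) (cl P j) (t i) (cl_eig P t T hTP i), Matrix.add_mulVec, smul_mulVec,
    one_mulVec, cl_eig P t T hTP j, ← add_smul, sk_smul, add_comm]

/-- sums of two eigenvalues -/
theorem spo_sum (ψ T : Matrix (Fin r) (Fin r) K) (hψ : ψ.det ≠ 0)
    (hs : ψ.transpose = ψ) (hT : T.transpose * ψ + ψ * T = 0)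
    (hA : ∀ Y : Matrix (Fin r) (Fin r) K, Y.transpose * ψ + ψ * Y = 0 →
      AD T (AD T (AD T Y)) = AD T Y)
    (P : Matrix.GeneralLinearGroup (Fin r) K) (t : Fin r → K)
    (hTP : T = (P : Matrix (Fin r) (Fin r) K) * Matrix.diagonal t *
        ((P⁻¹ : Matrix.GeneralLinearGroup (Fin r) K) : Matrix (Fin r) (Fin r) K)) (i j : Fin r)
    (hij : i ≠ j) : (t i + t j) ^ 3 = t i + t j := by
  have h1 := hA _ (sk_skew 1 (by ring) ψ (by rw [one_smul]; exact hs) (cl P i) (cl P j))
  rw [AD_cl 1 ψ T hT P t hTP, AD_smul, AD_cl 1 ψ T hT P t hTP, AD_smul, AD_smul,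
    AD_cl 1 ψ T hT P t hTP, smul_smul, smul_smul, ← sub_eq_zero, ← sub_smul] at h1
  have h2 : sk 1 ψ (cl P i) (cl P j) ≠ 0 := by
    intro h3
    obtain ⟨c, hc⟩ := sk_zero_right ψ hψ 1 (by ring) _ _ (cl_ne P i) h3
    have h4 := cl_indep P i j hij c 1 (by rw [one_smul]; exact hc.symm)
    exact one_ne_zero h4.2
  have h3 := (smul_eq_zero.1 h1).resolve_right h2
  linear_combination h3

theorem sq_X3 [CharZero K] : Squarefree (X ^ 3 - X : K[X]) := by
  have h1 : (∏ i : Fin 3, (X - C ((![0, 1, -1] : Fin 3 → K) i))).Separable := by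
    rw [Polynomial.separable_prod_X_sub_C_iff]
    intro a b hab
    have h2 : (2 : K) ≠ 0 := two_ne_zero
    have h3 : (1 : K) ≠ -1 := by
      intro h
      apply h2
      linear_combination h
    fin_cases a <;> fin_cases b <;> simp_all
  have h4 : (X ^ 3 - X : K[X]) = ∏ i : Fin 3, (X - C ((![0, 1, -1] : Fin 3 → K) i)) := by
    rw [Fin.prod_univ_three]
    simp
    ring
  rw [h4]
  exact h1.squarefree

theorem sq_X2 [CharZero K] (lam : K) (h : lam ≠ 0) : Squarefree (X ^ 2 - C (lam ^ 2) : K[X]) := by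
  have h1 : (∏ i : Fin 2, (X - C ((![lam, -lam] : Fin 2 → K) i))).Separable := by
    rw [Polynomial.separable_prod_X_sub_C_iff]
    intro a b hab
    have h3 : lam ≠ -lam := by
      intro h5
      apply h
      have h6 : (2 : K) * lam = 0 := by linear_combination h5
      exact (mul_eq_zero.1 h6).resolve_left two_ne_zero
    fin_cases a <;> fin_cases b <;> simp_all
  have h4 : (X ^ 2 - C (lam ^ 2) : K[X]) = ∏ i : Fin 2, (X - C ((![lam, -lam] : Fin 2 → K) i)) := by
    rw [Fin.prod_univ_two]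
    simp
    ring
  rw [h4]
  exact h1.squarefree

theorem aeval_diag (P : Matrix.GeneralLinearGroup (Fin r) K) (t : Fin r → K)
    (T : Matrix (Fin r) (Fin r) K)
    (hTP : T = (P : Matrix (Fin r) (Fin r) K) * Matrix.diagonal t *
        ((P⁻¹ : Matrix.GeneralLinearGroup (Fin r) K) : Matrix (Fin r) (Fin r) K)) (q : K[X])
    (hq : aeval T q = 0) (j : Fin r) : q.eval (t j) = 0 := by
  have h1 : ∀ p : K[X], (aeval T p) *ᵥ cl P j = p.eval (t j) • cl P j := by
    intro p
    induction p using Polynomial.induction_on' with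
    | add p q hp hq => rw [map_add, Matrix.add_mulVec, hp, hq, eval_add, add_smul]
    | monomial m c =>
      have h2 : ∀ m : ℕ, (T ^ m) *ᵥ cl P j = (t j) ^ m • cl P j := by
        intro m
        induction m with
        | zero => rw [pow_zero, pow_zero, one_mulVec, one_smul]
        | succ m ih =>
          rw [pow_succ, ← mulVec_mulVec, cl_eig P t T hTP, mulVec_smul, ih, smul_smul, pow_succ,
            mul_comm]
      rw [aeval_monomial, ← mulVec_mulVec, Algebra.algebraMap_eq_smul_one, Matrix.smul_mulVec,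
        Matrix.one_mulVec, h2, eval_monomial, smul_smul]
  have h3 := h1 q
  rw [hq, zero_mulVec] at h3
  exact (smul_eq_zero.1 h3.symm).resolve_right (cl_ne P j)

end SP11

theorem st_SPO : ST_SPO := by
  intro K _ _ _ r ψ T hr hψ hs hT hT0 hG
  have hA := spo_ad ψ T hG
  by_cases h0 : ∃ lam : K, lam ≠ 0 ∧ (T - lam • (1 : Matrix (Fin r) (Fin r) K)).det = 0
  · obtain ⟨lam, hlam, hdet⟩ := h0
    obtain ⟨x, hx, hTx⟩ := Matrix.exists_mulVec_eq_zero_iff.2 hdet
    obtain ⟨x', hx', hTx'⟩ := Matrix.exists_mulVec_eq_zero_iff.2 (neg_det ψ T hψ hT lam hdet)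
    have e1 : T *ᵥ x = lam • x := by
      rw [sub_mulVec, smul_mulVec, one_mulVec, sub_eq_zero] at hTx
      exact hTx
    have e2 : T *ᵥ x' = (-lam) • x' := by
      rw [add_mulVec, smul_mulVec, one_mulVec, add_eq_zero_iff_eq_neg] at hTx'
      rw [hTx', neg_smul]
    have p1 := spo_star ψ T hψ hs hT hA x hx lam e1
    have p2 := spo_star ψ T hψ hs hT hA x' hx' (-lam) e2
    -- polynomial form
    have q1 : aeval T ((X - C lam) * ((X + C lam) ^ 3 - (X + C lam)) : K[X]) = 0 := by
      simpa [Algebra.algebraMap_eq_smul_one] using p1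
    have q2 : aeval T ((X + C lam) * ((X - C lam) ^ 3 - (X - C lam)) : K[X]) = 0 := by
      simpa [Algebra.algebraMap_eq_smul_one, sub_eq_add_neg] using p2
    have q3 : aeval T (X * (X ^ 2 - C (lam ^ 2)) : K[X]) = 0 := by
      have e3 : (X * (X ^ 2 - C (lam ^ 2)) : K[X]) = C (1 / (4 * lam)) *
          ((X - C lam) * ((X + C lam) ^ 3 - (X + C lam)) -
            (X + C lam) * ((X - C lam) ^ 3 - (X - C lam))) := by
        have e4 : ((X - C lam) * ((X + C lam) ^ 3 - (X + C lam)) -
            (X + C lam) * ((X - C lam) ^ 3 - (X - C lam)) : K[X]) =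
            C (4 * lam) * (X * (X ^ 2 - C (lam ^ 2))) := by
          simp only [map_mul, map_pow]
          have e5 : (C (4 : K) : K[X]) = 4 := rfl
          rw [e5]
          ring
        rw [e4, ← mul_assoc, ← C_mul, one_div, inv_mul_cancel₀, C_1, one_mul]
        exact mul_ne_zero (by norm_num) hlam
      rw [e3, map_mul, map_sub, q1, q2, sub_zero, mul_zero]
    have q4 : aeval T (C (lam ^ 2 - 1) * (X ^ 2 - C (lam ^ 2)) : K[X]) = 0 := by
      have e3 : (C (lam ^ 2 - 1) * (X ^ 2 - C (lam ^ 2)) : K[X]) =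
          (X - C lam) * ((X + C lam) ^ 3 - (X + C lam)) -
            (X * (X ^ 2 - C (lam ^ 2))) * (X + 2 * C lam) := by
        simp only [map_sub, map_pow, C_1]
        ring
      rw [e3, map_sub, map_mul _ (X * (X ^ 2 - C (lam ^ 2))), q1, q3, zero_mul, sub_zero]
    by_cases h1 : lam ^ 2 = 1
    · -- eigenvalues `1, -1, 0`
      left
      have q5 : aeval T (X ^ 3 - X : K[X]) = 0 := by
        have e3 : (X ^ 3 - X : K[X]) = X * (X ^ 2 - C (lam ^ 2)) := by
          rw [h1, C_1]
          ring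
        rw [e3, q3]
      obtain ⟨P, t, hTP⟩ := diag1 T _ sq_X3 q5
      have ht : ∀ j, t j = 0 ∨ t j = 1 ∨ t j = -1 := by
        intro j
        have h2 := aeval_diag P t T hTP _ q5 j
        rw [eval_sub, eval_pow, eval_X] at h2
        have h3 : t j * ((t j - 1) * (t j + 1)) = 0 := by linear_combination h2
        rcases mul_eq_zero.1 h3 with h4 | h4
        · exact Or.inl h4
        rcases mul_eq_zero.1 h4 with h5 | h5
        · exact Or.inr (Or.inl (by linear_combination h5))
        · exact Or.inr (Or.inr (by linear_combination h5))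
      have hsum := spo_sum ψ T hψ hs hT hA P t hTP
      have h6 : (6 : K) ≠ 0 := by norm_num
      have hu1 : ∀ i j, t i = 1 → t j = 1 → i = j := by
        intro i j hi hj
        by_contra hij
        have h7 := hsum i j hij
        rw [hi, hj] at h7
        apply h6
        linear_combination h7
      have hex : ∃ i, t i = 1 := by
        by_contra hcon
        push Not at hcon
        have hcon2 : ∀ i, t i = 0 := by
          intro i
          rcases ht i with h | h | h
          · exact h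
          · exact absurd h (hcon i)
          · obtain ⟨j, hj⟩ := opp_ex ψ T hψ hT P t hTP i
            exfalso
            apply hcon j
            rw [h] at hj
            linear_combination hj
        apply hT0
        rw [hTP, show t = 0 from funext hcon2]
        simp
      obtain ⟨i₀, hi₀⟩ := hex
      obtain ⟨j₀, hj₀⟩ := opp_ex ψ T hψ hT P t hTP i₀
      have htj : t j₀ = -1 := by
        rw [hi₀] at hj₀
        linear_combination hj₀
      classical
      refine ⟨P, fun j => if t j = 1 then 1 else if t j = -1 then -1 else 0, i₀, j₀, ?_, ?_, ?_, ?_⟩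
      · show (if t i₀ = 1 then (1 : ℤ) else if t i₀ = -1 then -1 else 0) = 1
        rw [if_pos hi₀]
      · show (if t j₀ = 1 then (1 : ℤ) else if t j₀ = -1 then -1 else 0) = -1
        rw [if_neg, if_pos htj]
        rw [htj]
        intro h
        have h8 : (2 : K) = 0 := by linear_combination -h
        exact two_ne_zero h8
      · intro j hj1 hj2
        show (if t j = 1 then (1 : ℤ) else if t j = -1 then -1 else 0) = 0
        rw [if_neg (fun h => hj1 (hu1 j i₀ h hi₀)), if_neg]
        intro h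
        apply hj2
        refine opp_uniq ψ T hψ hT P t hTP i₀ j j₀ ?_ ?_ hj₀
        · intro k hk h9
          exact hk (hu1 k i₀ (h9.trans hi₀) hi₀)
        · rw [hi₀, h]
          ring
      · rw [hTP]
        apply to_dg
        intro j
        show t j = ((if t j = 1 then (1 : ℤ) else if t j = -1 then -1 else 0 : ℤ) : K)
        rcases ht j with h | h | h
        · rw [if_neg, if_neg, h, Int.cast_zero]
          · rw [h]
            intro h8
            have : (1 : K) = 0 := by linear_combination h8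
            exact one_ne_zero this
          · rw [h]
            exact zero_ne_one
        · rw [if_pos h, h, Int.cast_one]
        · rw [if_neg, if_pos h, h, Int.cast_neg, Int.cast_one]
          rw [h]
          intro h8
          have : (2 : K) = 0 := by linear_combination -h8
          exact two_ne_zero this
    · -- eigenvalues `1/2, -1/2`
      right
      have q5 : aeval T (X ^ 2 - C (lam ^ 2) : K[X]) = 0 := by
        have e3 : (X ^ 2 - C (lam ^ 2) : K[X]) =
            C ((lam ^ 2 - 1)⁻¹) * (C (lam ^ 2 - 1) * (X ^ 2 - C (lam ^ 2))) := by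
          rw [← mul_assoc, ← C_mul, inv_mul_cancel₀ (sub_ne_zero.2 h1), C_1, one_mul]
        rw [e3, map_mul, q4, mul_zero]
      obtain ⟨P, t, hTP⟩ := diag1 T _ (sq_X2 lam hlam) q5
      have ht : ∀ j, t j = lam ∨ t j = -lam := by
        intro j
        have h2 := aeval_diag P t T hTP _ q5 j
        rw [eval_sub, eval_pow, eval_X, eval_C] at h2
        have h3 : (t j - lam) * (t j + lam) = 0 := by linear_combination h2
        rcases mul_eq_zero.1 h3 with h4 | h4
        · exact Or.inl (by linear_combination h4)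
        · exact Or.inr (by linear_combination h4)
      have hsum := spo_sum ψ T hψ hs hT hA P t hTP
      -- two equal eigenvalues
      obtain ⟨i, j, hij, hij2⟩ : ∃ i j, i ≠ j ∧ t i = t j := by
        let a : Fin r := ⟨0, by omega⟩
        let b : Fin r := ⟨1, by omega⟩
        let c : Fin r := ⟨2, by omega⟩
        have hab : a ≠ b := by intro h; exact absurd (congrArg Fin.val h) (by simp [a, b])
        have hac : a ≠ c := by intro h; exact absurd (congrArg Fin.val h) (by simp [a, c])
        have hbc : b ≠ c := by intro h; exact absurd (congrArg Fin.val h) (by simp [b, c])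
        rcases ht a with h | h <;> rcases ht b with h' | h' <;> rcases ht c with h'' | h''
        · exact ⟨a, b, hab, h.trans h'.symm⟩
        · exact ⟨a, b, hab, h.trans h'.symm⟩
        · exact ⟨a, c, hac, h.trans h''.symm⟩
        · exact ⟨b, c, hbc, h'.trans h''.symm⟩
        · exact ⟨b, c, hbc, h'.trans h''.symm⟩
        · exact ⟨a, c, hac, h.trans h''.symm⟩
        · exact ⟨a, b, hab, h.trans h'.symm⟩
        · exact ⟨a, b, hab, h.trans h'.symm⟩
      have h4 : 4 * lam ^ 2 = 1 := by
        have h5 := hsum i j hij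
        rw [← hij2] at h5
        have h6 : t i ≠ 0 := by
          rcases ht i with h | h <;> rw [h]
          · exact hlam
          · exact neg_ne_zero.2 hlam
        have h7 : (2 * t i) * (4 * t i ^ 2 - 1) = 0 := by linear_combination h5
        have h8 := (mul_eq_zero.1 h7).resolve_left (mul_ne_zero two_ne_zero h6)
        rcases ht i with h | h <;> rw [h] at h8 <;> linear_combination h8
      have ht2 : ∀ j, 2 * t j = 1 ∨ 2 * t j = -1 := by
        intro j
        have h5 : (2 * t j - 1) * (2 * t j + 1) = 0 := by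
          rcases ht j with h | h <;> rw [h] <;> linear_combination h4
        rcases mul_eq_zero.1 h5 with h6 | h6
        · exact Or.inl (by linear_combination h6)
        · exact Or.inr (by linear_combination h6)
      classical
      refine ⟨P, fun j => if 2 * t j = 1 then 1 else -1, fun j => ?_, ?_⟩
      · by_cases h5 : 2 * t j = 1
        · exact Or.inl (if_pos h5)
        · exact Or.inr (if_neg h5)
      · have e1 : (2 : K) • T = (P : Matrix (Fin r) (Fin r) K) *
            Matrix.diagonal (fun j => 2 * t j) *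
            ((P⁻¹ : Matrix.GeneralLinearGroup (Fin r) K) : Matrix (Fin r) (Fin r) K) := by
          have e2 : Matrix.diagonal (fun j => 2 * t j) = (2 : K) • Matrix.diagonal t := by
            rw [← Matrix.diagonal_smul]
            rfl
          rw [e2, Matrix.mul_smul, Matrix.smul_mul, ← hTP]
        rw [e1]
        apply to_dg
        intro j
        show 2 * t j = ((if 2 * t j = 1 then (1 : ℤ) else -1 : ℤ) : K)
        by_cases h5 : 2 * t j = 1
        · rw [if_pos h5, h5, Int.cast_one]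
        · rw [if_neg h5, (ht2 j).resolve_left h5, Int.cast_neg, Int.cast_one]
  · -- all the eigenvalues vanish
    exfalso
    push Not at h0
    have : Nonempty (Fin r) := ⟨⟨0, by omega⟩⟩
    have hunit : ∀ lam : K, lam ≠ 0 → IsUnit (T - lam • (1 : Matrix (Fin r) (Fin r) K)) := by
      intro lam hlam
      rw [Matrix.isUnit_iff_isUnit_det, isUnit_iff_ne_zero]
      exact h0 lam hlam
    have hdet0 : T.det = 0 := by
      obtain ⟨μ, hμ⟩ := Module.End.exists_eigenvalue (Matrix.toLin' T)
      obtain ⟨x, hx⟩ := hμ.exists_hasEigenvector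
      have h1 : T *ᵥ x = μ • x := by
        have := hx.apply_eq_smul
        rwa [Matrix.toLin'_apply] at this
      have h2 : (T - μ • (1 : Matrix (Fin r) (Fin r) K)).det = 0 := by
        rw [← Matrix.exists_mulVec_eq_zero_iff]
        exact ⟨x, hx.2, by rw [sub_mulVec, smul_mulVec, one_mulVec, h1, sub_self]⟩
      by_cases hμ0 : μ = 0
      · rw [hμ0, zero_smul, sub_zero] at h2
        exact h2
      · exact absurd h2 (h0 μ hμ0)
    obtain ⟨x, hx, hTx⟩ := Matrix.exists_mulVec_eq_zero_iff.2 hdet0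
    have p1 := spo_star ψ T hψ hs hT hA x hx 0 (by rw [hTx, zero_smul])
    rw [zero_smul, sub_zero, add_zero] at p1
    have h2 : T * T = 0 := by
      have e1 : T * T * ((T - (1 : K) • (1 : Matrix (Fin r) (Fin r) K)) *
          (T - (-1 : K) • (1 : Matrix (Fin r) (Fin r) K))) = 0 := by
        rw [← p1]
        simp only [one_smul, neg_smul]
        noncomm_ring
      have hu := (hunit 1 one_ne_zero).mul (hunit (-1) (neg_ne_zero.2 one_ne_zero))
      exact (hu.mul_left_eq_zero).1 e1
    exact hT0 (spo_nil ψ T hr hψ hs hT hA h2)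

end EM
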