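import Pool.Agent.Helper11.EM.SPO

/-! Row SPS of the project EM. -/

set_option autoImplicit false

open Matrix Polynomial MT

namespace EM

open SP11

namespace SP11

variable {K : Type} [Field K] {r : ℕ}

theorem AD_add (T A B : Matrix (Fin r) (Fin r) K) : AD T (A + B) = AD T A + AD T B := by
  rw [AD, AD, AD, Matrix.mul_add, Matrix.add_mul]
  abel

theorem AD_neg (T A : Matrix (Fin r) (Fin r) K) : AD T (-A) = -AD T A := by
  rw [AD, AD, Matrix.mul_neg, Matrix.neg_mul]
  abel

/-- consequences of the grading hypothesis -/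
theorem sps_ad (ψ T : Matrix (Fin r) (Fin r) K)
    (hG : ∀ Y : Matrix (Fin r) (Fin r) K, Y.transpose * ψ + ψ * Y = 0 →
      ∃ Y₀ Y₁ Y₂ Y₃ Y₄ : Matrix (Fin r) (Fin r) K, Y = Y₀ + Y₁ + Y₂ + Y₃ + Y₄ ∧
        T * Y₀ - Y₀ * T = 0 ∧ T * Y₁ - Y₁ * T = Y₁ ∧ T * Y₂ - Y₂ * T = -Y₂ ∧
        T * Y₃ - Y₃ * T = (2 : K) • Y₃ ∧ T * Y₄ - Y₄ * T = -((2 : K) • Y₄))
    (Y : Matrix (Fin r) (Fin r) K) (hY : Y.transpose * ψ + ψ * Y = 0) :
    AD T (AD T (AD T (AD T (AD T Y)))) + (-5 : K) • AD T (AD T (AD T Y)) +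
      (4 : K) • AD T Y = 0 := by
  obtain ⟨Y₀, Y₁, Y₂, Y₃, Y₄, rfl, h0, h1, h2, h3, h4⟩ := hG Y hY
  have e0 : AD T Y₀ = (0 : K) • Y₀ := by rw [zero_smul]; exact h0
  have e1 : AD T Y₁ = (1 : K) • Y₁ := by rw [one_smul]; exact h1
  have e2 : AD T Y₂ = (-1 : K) • Y₂ := by rw [neg_smul, one_smul]; exact h2
  have e3 : AD T Y₃ = (2 : K) • Y₃ := h3
  have e4 : AD T Y₄ = (-2 : K) • Y₄ := by rw [neg_smul]; exact h4
  have hc : ∀ (c : K) (Z : Matrix (Fin r) (Fin r) K), AD T Z = c • Z →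
      AD T (AD T (AD T (AD T (AD T Z)))) + (-5 : K) • AD T (AD T (AD T Z)) +
      (4 : K) • AD T Z = (c ^ 5 - 5 * c ^ 3 + 4 * c) • Z := by
    intro c Z hZ
    simp only [hZ, AD_smul, smul_smul]
    rw [← add_smul, ← add_smul]
    congr 1
    ring
  have hadd : ∀ A B : Matrix (Fin r) (Fin r) K,
      AD T (AD T (AD T (AD T (AD T (A + B))))) + (-5 : K) • AD T (AD T (AD T (A + B))) +
      (4 : K) • AD T (A + B) =
      (AD T (AD T (AD T (AD T (AD T A)))) + (-5 : K) • AD T (AD T (AD T A)) +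
      (4 : K) • AD T A) + (AD T (AD T (AD T (AD T (AD T B)))) + (-5 : K) • AD T (AD T (AD T B)) +
      (4 : K) • AD T B) := by
    intro A B
    simp only [AD_add, smul_add]
    abel
  rw [hadd, hadd, hadd, hadd, hc 0 Y₀ e0, hc 1 Y₁ e1, hc (-1) Y₂ e2, hc 2 Y₃ e3, hc (-2) Y₄ e4]
  have z0 : ((0 : K) ^ 5 - 5 * 0 ^ 3 + 4 * 0) = 0 := by ring
  have z1 : ((1 : K) ^ 5 - 5 * 1 ^ 3 + 4 * 1) = 0 := by ring
  have z2 : ((-1 : K) ^ 5 - 5 * (-1) ^ 3 + 4 * (-1)) = 0 := by ring
  have z3 : ((2 : K) ^ 5 - 5 * 2 ^ 3 + 4 * 2) = 0 := by ring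
  have z4 : ((-2 : K) ^ 5 - 5 * (-2) ^ 3 + 4 * (-2)) = 0 := by ring
  rw [z0, z1, z2, z3, z4]
  simp

/-- in the eigenvector basis -/
theorem sps_star [CharZero K] (ψ T : Matrix (Fin r) (Fin r) K) (hψ : ψ.det ≠ 0)
    (hs : ψ.transpose = -ψ) (hT : T.transpose * ψ + ψ * T = 0)
    (hA : ∀ Y : Matrix (Fin r) (Fin r) K, Y.transpose * ψ + ψ * Y = 0 →
      AD T (AD T (AD T (AD T (AD T Y)))) + (-5 : K) • AD T (AD T (AD T Y)) +
      (4 : K) • AD T Y = 0) (x : Fin r → K) (hx : x ≠ 0) (lam : K)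
    (hlam : T *ᵥ x = lam • x) :
    (T + lam • (1 : Matrix (Fin r) (Fin r) K)) ^ 5 +
      (-5 : K) • (T + lam • (1 : Matrix (Fin r) (Fin r) K)) ^ 3 +
      (4 : K) • (T + lam • (1 : Matrix (Fin r) (Fin r) K)) = 0 := by
  set S := T + lam • (1 : Matrix (Fin r) (Fin r) K) with hS
  have hker : ∀ y : Fin r → K, (S ^ 5 + (-5 : K) • S ^ 3 + (4 : K) • S) *ᵥ y = 0 := by
    intro y
    have h1 := hA (sk (-1) ψ x y) (sk_skew (-1) (by ring) ψ
      (by rw [neg_smul, one_smul]; exact hs) x y)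
    simp only [AD_sk (-1) ψ T hT x _ lam hlam, ← hS] at h1
    apply sk_neg_zero_right ψ hψ x _ hx
    rw [← h1, add_mulVec, add_mulVec, smul_mulVec, smul_mulVec, sk_add, sk_add, sk_smul, sk_smul]
    have e5 : S ^ 5 *ᵥ y = S *ᵥ S *ᵥ S *ᵥ S *ᵥ S *ᵥ y := by
      simp only [mulVec_mulVec]
      congr 1
      noncomm_ring
    have e3 : S ^ 3 *ᵥ y = S *ᵥ S *ᵥ S *ᵥ y := by
      simp only [mulVec_mulVec]
      congr 1
      noncomm_ring
    rw [e5, e3]
  apply Matrix.ext_of_mulVec_single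
  intro i
  rw [hker, zero_mulVec]

/-- sums of two eigenvalues -/
theorem sps_sum [CharZero K] (ψ T : Matrix (Fin r) (Fin r) K) (hψ : ψ.det ≠ 0)
    (hs : ψ.transpose = -ψ) (hT : T.transpose * ψ + ψ * T = 0)
    (hA : ∀ Y : Matrix (Fin r) (Fin r) K, Y.transpose * ψ + ψ * Y = 0 →
      AD T (AD T (AD T (AD T (AD T Y)))) + (-5 : K) • AD T (AD T (AD T Y)) +
      (4 : K) • AD T Y = 0)
    (P : Matrix.GeneralLinearGroup (Fin r) K) (t : Fin r → K)
    (hTP : T = (P : Matrix (Fin r) (Fin r) K) * Matrix.diagonal t *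
        ((P⁻¹ : Matrix.GeneralLinearGroup (Fin r) K) : Matrix (Fin r) (Fin r) K)) (i j : Fin r) :
    t i + t j = 0 ∨ t i + t j = 1 ∨ t i + t j = -1 ∨ t i + t j = 2 ∨ t i + t j = -2 := by
  have h1 := hA _ (sk_skew (-1) (by ring) ψ (by rw [neg_smul, one_smul]; exact hs)
    (cl P i) (cl P j))
  simp only [AD_cl (-1) ψ T hT P t hTP, AD_smul, smul_smul] at h1
  rw [← add_smul, ← add_smul] at h1
  have h2 : sk (-1) ψ (cl P i) (cl P j) ≠ 0 := fun h3 =>
    cl_ne P j (sk_neg_zero_right ψ hψ _ _ (cl_ne P i) h3)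
  have h3 := (smul_eq_zero.1 h1).resolve_right h2
  have h4 : (t i + t j) * ((t i + t j - 1) * ((t i + t j + 1) * ((t i + t j - 2) *
      (t i + t j + 2)))) = 0 := by linear_combination h3
  rcases mul_eq_zero.1 h4 with h | h
  · exact Or.inl h
  rcases mul_eq_zero.1 h with h | h
  · exact Or.inr (Or.inl (by linear_combination h))
  rcases mul_eq_zero.1 h with h | h
  · exact Or.inr (Or.inr (Or.inl (by linear_combination h)))
  rcases mul_eq_zero.1 h with h | h
  · exact Or.inr (Or.inr (Or.inr (Or.inl (by linear_combination h))))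
  · exact Or.inr (Or.inr (Or.inr (Or.inr (by linear_combination h))))

theorem sq_X5 [CharZero K] (lam : K) :
    Squarefree ((X + C lam) ^ 5 + C (-5) * (X + C lam) ^ 3 + C 4 * (X + C lam) : K[X]) := by
  have h1 : (∏ i : Fin 5, (X - C (((fun i => (![0, 1, -1, 2, -2] : Fin 5 → K) i - lam) :
      Fin 5 → K) i))).Separable := by
    rw [Polynomial.separable_prod_X_sub_C_iff]
    intro a b hab
    have hab' : (![0, 1, -1, 2, -2] : Fin 5 → K) a = (![0, 1, -1, 2, -2] : Fin 5 → K) b :=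
      sub_left_injective hab
    have hz : ∀ c : Fin 5, (![0, 1, -1, 2, -2] : Fin 5 → K) c =
        ((![0, 1, -1, 2, -2] : Fin 5 → ℤ) c : K) := by
      intro c
      fin_cases c <;> simp
    rw [hz, hz] at hab'
    have h3 := Int.cast_injective hab'
    clear hab hab'
    revert h3
    revert a b
    decide
  have h4 : ((X + C lam) ^ 5 + C (-5) * (X + C lam) ^ 3 + C 4 * (X + C lam) : K[X]) =
      ∏ i : Fin 5, (X - C (((fun i => (![0, 1, -1, 2, -2] : Fin 5 → K) i - lam) :
      Fin 5 → K) i)) := by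
    rw [Fin.prod_univ_five]
    have e5 : (C (-5 : K) : K[X]) = -5 := by
      rw [C_neg]
      rfl
    have e4 : (C (4 : K) : K[X]) = 4 := rfl
    have e2 : (C (2 : K) : K[X]) = 2 := rfl
    rw [e5, e4]
    simp only [Matrix.cons_val_zero, Matrix.cons_val_one, Matrix.cons_val, C_sub, C_neg, C_1, C_0,
      e2]
    ring
  rw [h4]
  exact h1.squarefree

end SP11

theorem st_SPS : ST_SPS := by
  intro K _ _ _ r ψ T E hψ hs hT hG hE0 hE hTE hEu
  have hA := sps_ad ψ T hG
  -- `r` is positive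
  have hr : 0 < r := by
    rcases Nat.eq_zero_or_pos r with h | h
    · exfalso
      subst h
      apply hE0
      ext i
      exact i.elim0
    · exact h
  have hne : Nonempty (Fin r) := ⟨⟨0, hr⟩⟩
  -- an eigenvector
  obtain ⟨μ, hμ⟩ := Module.End.exists_eigenvalue (Matrix.toLin' T)
  obtain ⟨x, hx⟩ := hμ.exists_hasEigenvector
  have hTx : T *ᵥ x = μ • x := by
    have := hx.apply_eq_smul
    rwa [Matrix.toLin'_apply] at this
  have p1 := sps_star ψ T hψ hs hT hA x hx.2 μ hTx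
  have q1 : aeval T ((X + C μ) ^ 5 + C (-5) * (X + C μ) ^ 3 + C 4 * (X + C μ) : K[X]) = 0 := by
    have e1 : aeval T (X + C μ : K[X]) = T + μ • (1 : Matrix (Fin r) (Fin r) K) := by
      rw [map_add, aeval_X, aeval_C, Algebra.algebraMap_eq_smul_one]
    rw [map_add, map_add, map_mul, map_mul, map_pow, map_pow, e1, aeval_C, aeval_C,
      Algebra.algebraMap_eq_smul_one, Algebra.algebraMap_eq_smul_one, smul_mul_assoc,
      smul_mul_assoc, one_mul, one_mul]
    exact p1
  obtain ⟨P, t, hTP⟩ := diag1 T _ (sq_X5 μ) q1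
  have hsum := sps_sum ψ T hψ hs hT hA P t hTP
  -- integral relations between the eigenvalues
  have hint : ∀ i j, ∃ a : ℤ, (a = 0 ∨ a = 1 ∨ a = -1 ∨ a = 2 ∨ a = -2) ∧
      t i + t j = (a : K) := by
    intro i j
    rcases hsum i j with h | h | h | h | h
    · exact ⟨0, by simp, by rw [h]; simp⟩
    · exact ⟨1, by simp, by rw [h]; simp⟩
    · exact ⟨-1, by simp, by rw [h]; simp⟩
    · exact ⟨2, by simp, by rw [h]; simp⟩
    · exact ⟨-2, by simp, by rw [h]; simp⟩
  -- the degree two element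
  obtain ⟨i₀, j₀, hi₀, hj₀⟩ : ∃ i j, t i = 1 ∧ t j = -1 := by
    set E' := ((P⁻¹ : Matrix.GeneralLinearGroup (Fin r) K) : Matrix (Fin r) (Fin r) K) * E *
      (P : Matrix (Fin r) (Fin r) K) with hE'
    have h1 : E = (P : Matrix (Fin r) (Fin r) K) * E' *
        ((P⁻¹ : Matrix.GeneralLinearGroup (Fin r) K) : Matrix (Fin r) (Fin r) K) := by
      rw [hE']
      calc E = ((P : Matrix (Fin r) (Fin r) K) *
            ((P⁻¹ : Matrix.GeneralLinearGroup (Fin r) K) : Matrix (Fin r) (Fin r) K)) * E *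
            ((P : Matrix (Fin r) (Fin r) K) *
            ((P⁻¹ : Matrix.GeneralLinearGroup (Fin r) K) : Matrix (Fin r) (Fin r) K)) := by
            rw [mul_inv', Matrix.one_mul, Matrix.mul_one]
        _ = _ := by simp only [Matrix.mul_assoc]
    have h2 : E' ≠ 0 := by
      intro h
      apply hE0
      rw [h1, h, Matrix.mul_zero, Matrix.zero_mul]
    have h3 : Matrix.diagonal t * E' - E' * Matrix.diagonal t = (2 : K) • E' := by
      have h4 : ((P⁻¹ : Matrix.GeneralLinearGroup (Fin r) K) : Matrix (Fin r) (Fin r) K) *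
          (T * E - E * T) * (P : Matrix (Fin r) (Fin r) K) =
          Matrix.diagonal t * E' - E' * Matrix.diagonal t := by
        have h5 : ((P⁻¹ : Matrix.GeneralLinearGroup (Fin r) K) : Matrix (Fin r) (Fin r) K) * T =
            Matrix.diagonal t *
            ((P⁻¹ : Matrix.GeneralLinearGroup (Fin r) K) : Matrix (Fin r) (Fin r) K) := by
          rw [hTP, ← Matrix.mul_assoc, ← Matrix.mul_assoc, SP11.inv_mul', Matrix.one_mul]
        have h6 : T * (P : Matrix (Fin r) (Fin r) K) =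
            (P : Matrix (Fin r) (Fin r) K) * Matrix.diagonal t := by
          rw [hTP, Matrix.mul_assoc, SP11.inv_mul', Matrix.mul_one]
        rw [Matrix.mul_sub, Matrix.sub_mul]
        congr 1
        · rw [← Matrix.mul_assoc, h5, hE']
          simp only [Matrix.mul_assoc]
        · rw [Matrix.mul_assoc, Matrix.mul_assoc, h6, hE']
          simp only [Matrix.mul_assoc]
      rw [← h4, hTE, Matrix.mul_smul, Matrix.smul_mul]
    obtain ⟨i, j, hij⟩ : ∃ i j, E' i j ≠ 0 := by
      by_contra hcon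
      push Not at hcon
      apply h2
      ext i j
      rw [hcon, Matrix.zero_apply]
    have h4 := congrFun (congrFun h3 i) j
    rw [Matrix.sub_apply, diagonal_mul, mul_diagonal, Matrix.smul_apply, smul_eq_mul] at h4
    have h5 : (t i - t j - 2) * E' i j = 0 := by linear_combination h4
    have h6 := (mul_eq_zero.1 h5).resolve_right hij
    obtain ⟨a, ha, ha'⟩ := hint i i
    obtain ⟨b, hb, hb'⟩ := hint j j
    have h7 : ((a - b : ℤ) : K) = ((4 : ℤ) : K) := by
      push_cast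
      linear_combination 2 * h6 - ha' + hb'
    have h8 : a - b = 4 := Int.cast_injective h7
    have h9 : a = 2 ∧ b = -2 := by omega
    refine ⟨i, j, ?_, ?_⟩
    · have h10 : (2 : K) * (t i - 1) = 0 := by
        rw [h9.1] at ha'
        push_cast at ha'
        linear_combination ha'
      linear_combination (mul_eq_zero.1 h10).resolve_left two_ne_zero
    · have h10 : (2 : K) * (t j + 1) = 0 := by
        rw [h9.2] at hb'
        push_cast at hb'
        linear_combination hb'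
      linear_combination (mul_eq_zero.1 h10).resolve_left two_ne_zero
  have ht : ∀ k, t k = 0 ∨ t k = 1 ∨ t k = -1 := by
    intro k
    obtain ⟨a, ha, ha'⟩ := hint k i₀
    obtain ⟨b, hb, hb'⟩ := hint k j₀
    rw [hi₀] at ha'
    rw [hj₀] at hb'
    have h7 : ((a - b : ℤ) : K) = ((2 : ℤ) : K) := by
      push_cast
      linear_combination hb' - ha'
    have h8 : a - b = 2 := Int.cast_injective h7
    have h9 : a = 1 ∨ a = 2 ∨ a = 0 := by omega
    rcases h9 with h | h | h
    · left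
      rw [h] at ha'
      push_cast at ha'
      linear_combination ha'
    · right; left
      rw [h] at ha'
      push_cast at ha'
      linear_combination ha'
    · right; right
      rw [h] at ha'
      push_cast at ha'
      linear_combination ha'
  -- the eigenvalue `1` is simple
  have hu1 : ∀ i j, t i = 1 → t j = 1 → i = j := by
    intro i j hi hj
    by_contra hij
    have hdeg : ∀ k, t k = 1 → ∃ c : K, sk (-1) ψ (cl P i) (cl P k) = c • E := by
      intro k hk
      apply hEu _ (sk_skew (-1) (by ring) ψ (by rw [neg_smul, one_smul]; exact hs) _ _)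
      have h1 := AD_cl (-1) ψ T hT P t hTP i k
      rw [AD, hi, hk] at h1
      rw [h1]
      congr 1
      ring
    obtain ⟨c, hc⟩ := hdeg i hi
    obtain ⟨d, hd⟩ := hdeg j hj
    have hc0 : c ≠ 0 := by
      intro h
      rw [h, zero_smul] at hc
      exact cl_ne P i (sk_neg_zero_right ψ hψ _ _ (cl_ne P i) hc)
    have h1 : sk (-1) ψ (cl P i) (c • cl P j + (-d) • cl P i) = 0 := by
      rw [sk_add, sk_smul, sk_smul, hc, hd, smul_smul, smul_smul, ← add_smul]
      rw [show c * d + -d * c = 0 by ring, zero_smul]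
    have h2 := sk_neg_zero_right ψ hψ _ _ (cl_ne P i) h1
    have h3 : d • cl P i = c • cl P j := by
      rw [neg_smul, ← sub_eq_add_neg, sub_eq_zero] at h2
      exact h2.symm
    exact hc0 (cl_indep P i j hij d c h3).2
  have hsumij : t i₀ + t j₀ = 0 := by
    rw [hi₀, hj₀]
    ring
  classical
  refine ⟨P, fun j => if t j = 1 then 1 else if t j = -1 then -1 else 0, i₀, j₀, ?_, ?_, ?_, ?_⟩
  · show (if t i₀ = 1 then (1 : ℤ) else if t i₀ = -1 then -1 else 0) = 1
    rw [if_pos hi₀]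
  · show (if t j₀ = 1 then (1 : ℤ) else if t j₀ = -1 then -1 else 0) = -1
    rw [if_neg, if_pos hj₀]
    rw [hj₀]
    intro h
    have h8 : (2 : K) = 0 := by linear_combination -h
    exact two_ne_zero h8
  · intro j hj1 hj2
    show (if t j = 1 then (1 : ℤ) else if t j = -1 then -1 else 0) = 0
    rw [if_neg (fun h => hj1 (hu1 j i₀ h hi₀)), if_neg]
    intro h
    apply hj2
    refine opp_uniq ψ T hψ hT P t hTP i₀ j j₀ ?_ ?_ hsumij
    · intro k hk h9
      exact hk (hu1 k i₀ (h9.trans hi₀) hi₀)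
    · rw [hi₀, h]
      ring
  · rw [← to_dg P t (fun j => if t j = 1 then 1 else if t j = -1 then -1 else 0), ← hTP]
    intro j
    show t j = ((if t j = 1 then (1 : ℤ) else if t j = -1 then -1 else 0 : ℤ) : K)
    rcases ht j with h | h | h
    · rw [if_neg, if_neg, h, Int.cast_zero]
      · rw [h]
        intro h8
        have : (1 : K) = 0 := by linear_combination h8
        exact one_ne_zero this
      · rw [h]
        exact zero_ne_one
    · rw [if_pos h, h, Int.cast_one]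
    · rw [if_neg, if_pos h, h, Int.cast_neg, Int.cast_one]
      rw [h]
      intro h8
      have : (2 : K) = 0 := by linear_combination -h8
      exact two_ne_zero this

end EM
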